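import Mathlib

namespace Pool.Agent.Results.MP_170294_an.Two

open Set

/-- Hausdorff difference at `x` on `[-1,1]` -/
noncomputable def hd (f g : ℝ → ℝ) (x : ℝ) : ℝ :=
  max (sInf ((fun t => max |x - t| |f x - g t|) '' Icc (-1 : ℝ) 1))
    (sInf ((fun t => max |x - t| |f t - g x|) '' Icc (-1 : ℝ) 1))

/-- Hausdorff distance -/
noncomputable def rd (f g : ℝ → ℝ) : ℝ := sSup (hd f g '' Icc (-1 : ℝ) 1)

/-- best Hausdorff approximation by polynomials of degree at most `n` -/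
noncomputable def best (n : ℕ) (f : ℝ → ℝ) : ℝ :=
  sInf {r : ℝ | ∃ p : Polynomial ℝ, p.natDegree ≤ n ∧ r = rd f (fun x => p.eval x)}

lemma bdd (h : ℝ → ℝ) (x : ℝ) : BddBelow ((fun t => max |x - t| |h t|) '' Icc (-1 : ℝ) 1) := by
  refine ⟨0, ?_⟩
  rintro _ ⟨t, -, rfl⟩
  exact le_max_of_le_left (abs_nonneg _)

lemma hd_le (f g : ℝ → ℝ) {x : ℝ} (hx : x ∈ Icc (-1 : ℝ) 1) : hd f g x ≤ |f x - g x| := by
  apply max_le
  · refine (csInf_le (bdd (fun t => f x - g t) x) ⟨x, hx, rfl⟩).trans ?_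
    simp
  · refine (csInf_le (bdd (fun t => f t - g x) x) ⟨x, hx, rfl⟩).trans ?_
    simp

lemma hd_nonneg (f g : ℝ → ℝ) (x : ℝ) : 0 ≤ hd f g x := by
  apply le_max_of_le_left
  apply Real.sInf_nonneg
  rintro _ ⟨t, -, rfl⟩
  exact le_max_of_le_left (abs_nonneg _)

lemma rd_nonneg (f g : ℝ → ℝ) : 0 ≤ rd f g := by
  apply Real.sSup_nonneg
  rintro _ ⟨t, -, rfl⟩
  exact hd_nonneg _ _ _

lemma hd_le_rd {f g : ℝ → ℝ} (hf : Continuous f) (hg : Continuous g) {x : ℝ}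
    (hx : x ∈ Icc (-1 : ℝ) 1) : hd f g x ≤ rd f g := by
  refine le_csSup ?_ (mem_image_of_mem _ hx)
  obtain ⟨M, hM⟩ := (isCompact_Icc (a := (-1 : ℝ)) (b := 1)).bddAbove_image
    (f := fun x => |f x - g x|) (hf.sub hg).abs.continuousOn
  refine ⟨M, ?_⟩
  rintro _ ⟨t, ht, rfl⟩
  exact (hd_le f g ht).trans (hM ⟨t, ht, rfl⟩)

lemma ne0 (h : ℝ → ℝ) : (h '' Icc (-1 : ℝ) 1).Nonempty := ⟨h 0, 0, by norm_num, rfl⟩

noncomputable def ff (x : ℝ) : ℝ := max 0 (4 * |x| - 3)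

lemma ff_cont : Continuous ff := by unfold ff; fun_prop

lemma upper : best 2 (fun x => |x|) ≤ 1 / 8 := by
  have hb : BddBelow {r : ℝ | ∃ p : Polynomial ℝ, p.natDegree ≤ 2 ∧
      r = rd (fun x => |x|) (fun x => p.eval x)} := by
    refine ⟨0, ?_⟩
    rintro _ ⟨p, -, rfl⟩
    exact rd_nonneg _ _
  refine (csInf_le hb ⟨Polynomial.X ^ 2 + Polynomial.C (1 / 8), by compute_degree, rfl⟩).trans ?_
  apply csSup_le (ne0 _)
  rintro _ ⟨x, hx, rfl⟩
  refine (hd_le _ _ hx).trans ?_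
  have h1 : |x| ≤ 1 := abs_le.2 hx
  have h0 := abs_nonneg x
  simp only [Polynomial.eval_add, Polynomial.eval_pow, Polynomial.eval_X, Polynomial.eval_C]
  rw [← sq_abs x, abs_le]
  constructor <;> nlinarith [sq_nonneg (|x| - 1 / 2)]

lemma lower : 1 / 7 ≤ best 2 ff := by
  refine le_csInf ⟨_, (0 : Polynomial ℝ), by simp, rfl⟩ ?_
  rintro _ ⟨p, hp, rfl⟩
  by_contra hc
  push Not at hc
  obtain ⟨a, d, b, he⟩ : ∃ a d b : ℝ, ∀ x, p.eval x = a * x ^ 2 + d * x + b := by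
    refine ⟨p.coeff 2, p.coeff 1, p.coeff 0, fun x => ?_⟩
    rw [Polynomial.eval_eq_sum_range' (n := 3) (by omega)]
    simp [Finset.sum_range_succ]; ring
  have key : ∀ x ∈ Icc (-1 : ℝ) 1, hd ff (fun x => p.eval x) x < 1 / 7 := fun x hx =>
    (hd_le_rd ff_cont p.continuous hx).trans_lt hc
  have A : ∀ x : ℝ, |x| = 1 → ∃ t ∈ Icc (-1 : ℝ) 1, |x - t| < 1 / 7 ∧ 6 / 7 < p.eval t := by
    intro x hx
    have h1 := (le_max_left _ _).trans_lt (key x (abs_le.1 hx.le))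
    obtain ⟨_, ⟨t, ht, rfl⟩, h2⟩ := exists_lt_of_csInf_lt (ne0 _) h1
    rw [max_lt_iff] at h2
    refine ⟨t, ht, h2.1, ?_⟩
    have h3 : ff x = 1 := by unfold ff; rw [hx]; norm_num
    have := (abs_lt.1 h2.2).2
    rw [h3] at this
    linarith
  have B : ∀ x : ℝ, |x| ≤ 3 / 5 → |p.eval x| < 1 / 7 := by
    intro x hx
    have h1 := (le_max_right _ _).trans_lt (key x (abs_le.1 (hx.trans (by norm_num))))
    obtain ⟨_, ⟨t, ht, rfl⟩, h2⟩ := exists_lt_of_csInf_lt (ne0 _) h1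
    rw [max_lt_iff] at h2
    have h3 : |t| ≤ 3 / 4 := by
      have := abs_lt.1 h2.1
      have := abs_le.1 hx
      rw [abs_le]; constructor <;> linarith
    have h4 : ff t = 0 := by unfold ff; exact max_eq_left (by linarith)
    have := h2.2
    rwa [h4, zero_sub, abs_neg] at this
  have b0 := abs_lt.1 (B 0 (by norm_num))
  have b1 := abs_lt.1 (B (3 / 5) (by rw [abs_of_pos] <;> norm_num))
  have b2 := abs_lt.1 (B (-3 / 5) (by rw [abs_of_neg] <;> norm_num))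
  rw [he] at b0 b1 b2
  obtain ⟨s, hs, s1, s2⟩ := A 1 (by simp)
  obtain ⟨t, ht, t1, t2⟩ := A (-1) (by simp)
  rw [he] at s2 t2
  have s3 := abs_lt.1 s1
  have t3 := abs_lt.1 t1
  have s4 : s ^ 2 ≤ 1 := by nlinarith [hs.1, hs.2]
  have t4 : t ^ 2 ≤ 1 := by nlinarith [ht.1, ht.2]
  have hab : a + b < 6 / 7 := by linarith [b0.1, b1.2, b2.2]
  have hb : b < 6 / 7 := by linarith [b0.2]
  have q : ∀ u : ℝ, u ^ 2 ≤ 1 → a * u ^ 2 + b < 6 / 7 := by
    intro u hu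
    have := sq_nonneg u
    rcases le_total 0 a with h | h <;> nlinarith
  rcases le_total 0 d with h | h
  · have := q t t4
    nlinarith [t3.1]
  · have := q s s4
    nlinarith [s3.2]

theorem result : ∃ n : ℕ, 1 ≤ n ∧ ∃ f : ℝ → ℝ, ContinuousOn f (Icc (-1) 1) ∧
    ConvexOn ℝ (Icc (-1) 1) f ∧ (∀ x ∈ Icc (-1 : ℝ) 1, 0 ≤ f x ∧ f x ≤ 1) ∧
    best n (fun x => |x|) < best n f := by
  refine ⟨2, by norm_num, ff, ff_cont.continuousOn, ?_, ?_, ?_⟩
  · refine ⟨convex_Icc _ _, fun x _ y _ a b ha hb hab => ?_⟩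
    simp only [ff, smul_eq_mul]
    have h1 : |a * x + b * y| ≤ a * |x| + b * |y| := by
      refine (abs_add_le _ _).trans ?_
      rw [abs_mul, abs_mul, abs_of_nonneg ha, abs_of_nonneg hb]
    have h2 := le_max_left 0 (4 * |x| - 3)
    have h3 := le_max_right 0 (4 * |x| - 3)
    have h4 := le_max_left 0 (4 * |y| - 3)
    have h5 := le_max_right 0 (4 * |y| - 3)
    apply max_le
    · positivity
    · nlinarith [mul_le_mul_of_nonneg_left h3 ha, mul_le_mul_of_nonneg_left h5 hb]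
  · intro x hx
    have h1 : |x| ≤ 1 := abs_le.2 hx
    exact ⟨le_max_left _ _, max_le (by norm_num) (by linarith)⟩
  · linarith [upper, lower]

end Pool.Agent.Results.MP_170294_an.Two
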